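import Pool.Agent.Helper80.TQ.Blk

/-!
# Thin blocks with many digits `0` and small energy
-/

set_option autoImplicit false

open Finset Filter

namespace Pool.Agent.Helper87.FP

open Pool.Agent.Helper38.SP (quad EX_quad sum_quad_eq select EX)
open Pool.Agent.Helper80.TQ (wt zs zs_eq wt_nonneg wt_le sum_wt sum_good energy_form)

/-- one block, with a factor `τ`; the energy is also small -/
theorem block_thin (k : ℕ) (d τ : ℝ) (hd0 : 0 < d) (hd1 : d ≤ 2 / 5) (hkd : 8 ≤ k * d ^ 2)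
    (hτ0 : 0 < τ) (hτ1 : τ ≤ 1) (hX : τ ^ 2 * (1 + d ^ 4) ^ k ≤ 1) (hk : 32 ≤ τ * √((2 : ℝ) ^ k)) :
    ∃ B ⊆ range (2 ^ k), ((quad B).card : ℝ) ≤ 36 * τ ^ 2 * 2 ^ k ∧
      τ * √((2 : ℝ) ^ k) ≤ 4 * #B ∧ ∀ b ∈ B, k * d / 2 ≤ 2 * (zs k b : ℝ) - k := by
  classical
  obtain ⟨s, hs⟩ : ∃ s, s = √((2 : ℝ) ^ k) := ⟨_, rfl⟩
  rw [← hs] at hk ⊢
  have hs2 : s ^ 2 = 2 ^ k := by rw [hs]; exact Real.sq_sqrt (by positivity)
  have hs1 : 1 ≤ s := by
    rw [hs]
    apply Real.le_sqrt_of_sq_le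
    rw [one_pow]
    exact one_le_pow₀ (by norm_num)
  have hs0 : 0 < s := by linarith
  have hd1' : d ≤ 1 := by linarith
  have hw0 := wt_nonneg hd0.le hd1' k
  obtain ⟨p, hp⟩ : ∃ p : ℕ → ℝ, p = fun a => τ * wt d k a / s := ⟨_, rfl⟩
  have h0 : ∀ a, 0 ≤ p a := fun a => by
    rw [hp]; exact div_nonneg (mul_nonneg hτ0.le (hw0 a)) hs0.le
  have h1 : ∀ a, p a ≤ 1 := by
    intro a
    rw [hp]
    simp only
    rw [div_le_one hs0]
    refine (mul_le_of_le_one_left (hw0 a) hτ1).trans ((wt_le hd0.le hd1' k a).trans ?_)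
    rw [hs]
    apply Real.le_sqrt_of_sq_le
    rw [← pow_mul, mul_comm k 2, pow_mul]
    refine pow_le_pow_left₀ (by positivity) ?_ k
    nlinarith
  obtain ⟨G, hG⟩ : ∃ G : Finset ℕ,
    G = (range (2 ^ k)).filter (fun a => k * d / 2 ≤ 2 * (zs k a : ℝ) - k) := ⟨_, rfl⟩
  have hGr : G ⊆ range (2 ^ k) := by rw [hG]; exact filter_subset _ _
  have hpsum : ∀ T : Finset ℕ, ∑ a ∈ T, p a = τ * (∑ a ∈ T, wt d k a) / s := by
    intro T
    rw [hp, ← sum_div, ← mul_sum]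
  have hsum : ∑ a ∈ G, p a ≤ τ * s := by
    have h2 : ∑ a ∈ G, p a ≤ ∑ a ∈ range (2 ^ k), p a :=
      sum_le_sum_of_subset_of_nonneg hGr fun a _ _ => h0 a
    refine h2.trans ?_
    rw [hpsum, sum_wt, ← hs2, sq, mul_div_assoc, mul_div_assoc, div_self hs0.ne', mul_one]
  have hsum' : τ * s / 2 ≤ ∑ a ∈ G, p a := by
    have h2 := sum_good hd0 hd1' k hkd
    rw [← hG, ← hs2] at h2
    rw [hpsum, le_div_iff₀ hs0]
    have h3 := mul_le_mul_of_nonneg_left h2 hτ0.le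
    refine le_trans (le_of_eq ?_) h3
    ring
  -- the expected energy
  have hE : EX p G (fun S => ((quad S).card : ℝ)) ≤ 9 * τ ^ 2 * 2 ^ k := by
    refine (EX_quad h0 h1 G).trans ?_
    have h2 : ∑ q ∈ quad G, p q.1.1 * p q.1.2 * (p q.2.1 * p q.2.2) ≤ τ ^ 2 * 2 ^ k := by
      have h3 : ∑ q ∈ quad G, p q.1.1 * p q.1.2 * (p q.2.1 * p q.2.2) ≤
          ∑ q ∈ quad (range (2 ^ k)), p q.1.1 * p q.1.2 * (p q.2.1 * p q.2.2) := by
        refine sum_le_sum_of_subset_of_nonneg ?_ fun q _ _ =>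
          mul_nonneg (mul_nonneg (h0 _) (h0 _)) (mul_nonneg (h0 _) (h0 _))
        intro q hq
        unfold quad at hq ⊢
        simp only [mem_filter, mem_product] at hq ⊢
        exact ⟨⟨⟨hGr hq.1.1.1, hGr hq.1.1.2⟩, hGr hq.1.2.1, hGr hq.1.2.2⟩, hq.2⟩
      refine h3.trans ?_
      rw [sum_quad_eq]
      have h4 : ∀ n ∈ range (2 * 2 ^ k), (∑ v ∈ (range (2 ^ k) ×ˢ range (2 ^ k)).filter
          (fun v => v.1 + v.2 = n), p v.1 * p v.2) ^ 2 =
          τ ^ 4 / s ^ 4 * (∑ v ∈ (range (2 ^ k) ×ˢ range (2 ^ k)).filter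
          (fun v => v.1 + v.2 = n), wt d k v.1 * wt d k v.2) ^ 2 := by
        intro n _
        have h5 : ∑ v ∈ (range (2 ^ k) ×ˢ range (2 ^ k)).filter (fun v => v.1 + v.2 = n),
            p v.1 * p v.2 = τ ^ 2 / s ^ 2 *
            ∑ v ∈ (range (2 ^ k) ×ˢ range (2 ^ k)).filter (fun v => v.1 + v.2 = n),
              wt d k v.1 * wt d k v.2 := by
          rw [mul_sum, hp]
          refine sum_congr rfl fun v _ => ?_
          simp only
          field_simp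
        rw [h5, mul_pow, div_pow]
        congr 2
        · ring
        · ring
      rw [sum_congr rfl h4, ← mul_sum]
      have h5 : s ^ 4 = 2 ^ k * 2 ^ k := by
        rw [show (4 : ℕ) = 2 * 2 from rfl, pow_mul, hs2, sq]
      have h6 : (8 : ℝ) ^ k = 2 ^ k * (2 ^ k * 2 ^ k) := by
        rw [← mul_pow, ← mul_pow]
        norm_num
      refine (mul_le_mul_of_nonneg_left (energy_form d hd0.le hd1' k) (by positivity)).trans ?_
      rw [mul_pow, h6, h5]
      have h7 : (0 : ℝ) < 2 ^ k := by positivity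
      have h8 : τ ^ 4 / (2 ^ k * 2 ^ k) * (2 ^ k * (2 ^ k * 2 ^ k) * (1 + d ^ 4) ^ k) =
          τ ^ 2 * 2 ^ k * (τ ^ 2 * (1 + d ^ 4) ^ k) := by
        field_simp
      rw [h8]
      exact mul_le_of_le_one_right (by positivity) hX
    have h3 : (∑ a ∈ G, p a) ^ 2 ≤ τ ^ 2 * 2 ^ k := by
      rw [← hs2, ← mul_pow]
      exact pow_le_pow_left₀ (le_trans (by positivity) hsum') hsum 2
    have h4 : ∑ a ∈ G, p a ≤ τ ^ 2 * 2 ^ k := by
      refine hsum.trans ?_
      rw [← hs2, ← mul_pow]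
      nlinarith
    linarith
  have hτ2 : (0 : ℝ) < τ ^ 2 := by positivity
  obtain ⟨B, hBG, hQ, hB⟩ := select h0 h1 G ({()} : Finset Unit) (fun _ _ => (1 : ℂ))
    (fun _ _ => by rw [norm_one]) hE hsum (Q := 36 * τ ^ 2 * 2 ^ k) (δ := τ * s / 4)
    (by positivity) (by positivity) (by
      have e1 : 9 * τ ^ 2 * (2 : ℝ) ^ k / (36 * τ ^ 2 * 2 ^ k) = 1 / 4 := by
        field_simp
        norm_num
      rw [e1, card_singleton]
      have e2 : ((1 : ℕ) : ℝ) * (τ * s) / (τ * s / 4) ^ 2 = 16 / (τ * s) := by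
        push_cast
        field_simp
        norm_num
      rw [e2]
      have e3 : 16 / (τ * s) ≤ 1 / 2 := by
        rw [div_le_iff₀ (by positivity)]
        linarith
      linarith)
  refine ⟨B, hBG.trans hGr, hQ, ?_, fun b hb => ?_⟩
  · have h2 := hB () (mem_singleton_self _)
    have h3 : ∑ a ∈ B, (1 : ℂ) - ∑ a ∈ G, (p a : ℂ) * 1 = (((#B : ℝ) - ∑ a ∈ G, p a : ℝ) : ℂ) := by
      push_cast
      simp
    rw [h3, Complex.norm_real, Real.norm_eq_abs] at h2
    have h4 := (abs_le.1 h2).1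
    linarith
  · have := hBG hb
    rw [hG, mem_filter] at this
    exact this.2

/-- **thin blocks** -/
theorem thin : ∀ (k : ℕ), 10000 ≤ k → ∀ t : ℝ, 1 ≤ t → t ≤ 1 / 10 * (k : ℝ) ^ (1 / 4 : ℝ) →
    ∃ B ⊆ range (2 ^ k), ((quad B).card : ℝ) ≤ 36 * Real.exp (-256 * t ^ 4) * 2 ^ k ∧
      Real.exp (-128 * t ^ 4) * √((2 : ℝ) ^ k) ≤ 4 * #B ∧
      ∀ b ∈ B, (k : ℝ) / 2 + t * (k : ℝ) ^ (3 / 4 : ℝ) ≤ zs k b := by
  intro K hK t ht1 ht
  obtain ⟨q, hq⟩ : ∃ q : ℝ, q = (K : ℝ) ^ (1 / 4 : ℝ) := ⟨_, rfl⟩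
  have hK0 : (0 : ℝ) ≤ K := Nat.cast_nonneg K
  have hq0 : 0 ≤ q := by rw [hq]; exact Real.rpow_nonneg hK0 _
  have hq4 : q ^ 4 = K := by
    rw [hq, ← Real.rpow_natCast, ← Real.rpow_mul hK0]
    norm_num
  have hq3 : q ^ 3 = (K : ℝ) ^ (3 / 4 : ℝ) := by
    rw [hq, ← Real.rpow_natCast, ← Real.rpow_mul hK0]
    norm_num
  rw [← hq] at ht
  rw [← hq3]
  have hq10 : 10 ≤ q := by linarith
  have hq0' : 0 < q := by linarith
  have ht4 : 0 ≤ t ^ 4 := by positivity
  obtain ⟨B, hB1, hB2, hB3, hB4⟩ := block_thin K (4 * t / q) (Real.exp (-128 * t ^ 4))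
    (by positivity)
    (by
      rw [div_le_iff₀ hq0']
      linarith)
    (by
      have h1 : (K : ℝ) * (4 * t / q) ^ 2 = 16 * t ^ 2 * q ^ 2 := by
        rw [← hq4]
        field_simp
        ring
      rw [h1]
      have h2 : 1 ≤ t ^ 2 := one_le_pow₀ ht1
      have h3 : 1 ≤ q ^ 2 := one_le_pow₀ (by linarith)
      nlinarith)
    (Real.exp_pos _)
    (by
      rw [Real.exp_le_one_iff]
      linarith)
    (by
      have h5 : (4 * t / q) ^ 4 = 256 * t ^ 4 / K := by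
        rw [div_pow, hq4]
        ring
      have hKp : (0 : ℝ) < K := by rw [← hq4]; positivity
      have h6 : 1 + 256 * t ^ 4 / K ≤ Real.exp (256 * t ^ 4 / K) := by
        have := Real.add_one_le_exp (256 * t ^ 4 / K)
        linarith
      rw [h5]
      have h7 : (1 + 256 * t ^ 4 / K) ^ K ≤ Real.exp (256 * t ^ 4) := by
        refine (pow_le_pow_left₀ (by positivity) h6 K).trans (le_of_eq ?_)
        rw [← Real.exp_nat_mul]
        congr 1
        field_simp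
      have h8 : Real.exp (-128 * t ^ 4) ^ 2 = Real.exp (-(256 * t ^ 4)) := by
        rw [← Real.exp_nat_mul]
        congr 1
        push_cast
        ring
      rw [h8]
      calc Real.exp (-(256 * t ^ 4)) * (1 + 256 * t ^ 4 / K) ^ K
          ≤ Real.exp (-(256 * t ^ 4)) * Real.exp (256 * t ^ 4) :=
            mul_le_mul_of_nonneg_left h7 (Real.exp_pos _).le
        _ = 1 := by rw [← Real.exp_add, neg_add_cancel, Real.exp_zero])
    (by
      have hs : √((2 : ℝ) ^ K) = Real.exp (K * Real.log 2 / 2) := by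
        rw [← Real.exp_log (by positivity : (0 : ℝ) < 2 ^ K), Real.log_pow, Real.sqrt_eq_rpow,
          ← Real.exp_mul]
        congr 1
        ring
      rw [hs, ← Real.exp_add]
      have h1 : t ^ 4 ≤ K / 10000 := by
        have h2 := pow_le_pow_left₀ (by linarith) ht 4
        rw [mul_pow, hq4] at h2
        norm_num at h2
        linarith
      have h2 : (0.69 : ℝ) ≤ Real.log 2 := by
        have := Real.log_two_gt_d9
        linarith
      have h3 : (10000 : ℝ) ≤ K := by exact_mod_cast hK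
      have h4 : (5 : ℝ) ≤ -128 * t ^ 4 + K * Real.log 2 / 2 := by nlinarith
      have h5 : (32 : ℝ) ≤ Real.exp 5 := by
        have h6 : (2 : ℝ) ≤ Real.exp 1 := by
          have := Real.add_one_le_exp (1 : ℝ)
          linarith
        have h7 : Real.exp 5 = Real.exp 1 ^ 5 := by
          rw [← Real.exp_nat_mul]
          norm_num
        rw [h7]
        have := pow_le_pow_left₀ (by norm_num) h6 5
        norm_num at this ⊢
        exact this
      exact h5.trans (Real.exp_le_exp.2 h4))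
  refine ⟨B, hB1, ?_, hB3, fun a ha => ?_⟩
  · have h8 : Real.exp (-128 * t ^ 4) ^ 2 = Real.exp (-256 * t ^ 4) := by
      rw [← Real.exp_nat_mul]
      congr 1
      push_cast
      ring
    rwa [h8] at hB2
  · have h1 := hB4 a ha
    have h2 : (K : ℝ) * (4 * t / q) / 2 = 2 * (t * q ^ 3) := by
      rw [← hq4]
      field_simp
      ring
    rw [h2] at h1
    linarith

/-- thin blocks, in the form of the interface -/
theorem thin_block : ∃ c : ℝ, 0 < c ∧ ∀ᶠ k : ℕ in atTop, ∀ t : ℝ, 1 ≤ t →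
    t ≤ c * (k : ℝ) ^ (1 / 4 : ℝ) →
    ∃ B ⊆ range (2 ^ k), ((quad B).card : ℝ) ≤ 40 * Real.exp (-256 * t ^ 4) * 2 ^ k ∧
      Real.exp (-128 * t ^ 4) * √((2 : ℝ) ^ k) ≤ 8 * #B ∧
      ∀ b ∈ B, (k : ℝ) / 2 + t * (k : ℝ) ^ (3 / 4 : ℝ) ≤ zs k b := by
  refine ⟨1 / 10, by norm_num, ?_⟩
  filter_upwards [eventually_ge_atTop 10000] with k hk t ht1 ht
  obtain ⟨B, h1, h2, h3, h4⟩ := thin k hk t ht1 ht
  refine ⟨B, h1, h2.trans ?_, h3.trans ?_, h4⟩
  · refine mul_le_mul_of_nonneg_right ?_ (by positivity)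
    exact mul_le_mul_of_nonneg_right (by norm_num) (Real.exp_pos _).le
  · have : (0 : ℝ) ≤ #B := Nat.cast_nonneg _
    linarith

end Pool.Agent.Helper87.FP
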