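import Pool.Agent.Helper5.FP.Cand

/-!
# Elements which are not normal, below `2 ^ K`
-/

set_option autoImplicit false

open Finset Filter

namespace Pool.Agent.Helper87.FP

open Pool.Agent.Helper5.FP.Text Pool.Agent.Helper5.FP.Cand

theorem dpart {A : Set ℕ} (h0 : 0 ∈ A) {c C : ℝ} (hc : 0 < c)
    (h : ∀ (K : ℕ) (d : ℝ), 0 ≤ d → d ≤ c → c * ((2 : ℝ) ^ K) ^ (1 / 2 - C * d ^ 4) ≤
      {a | a ∈ A ∧ 2 ^ K ≤ a ∧ a < 2 ^ (K + 1) ∧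
        (1 / 2 + d) * K ≤ ({i | i < K ∧ a / 2 ^ i % 2 ^ 1 = 0}.ncard : ℝ)}.ncard) :
    ∃ c' C' : ℝ, 0 < c' ∧ ∀ (K : ℕ) (d : ℝ), 1 ≤ K → 0 ≤ d → d ≤ c' →
      c' * ((2 : ℝ) ^ K) ^ (1 / 2 - C' * d ^ 4) ≤
        {a | a ∈ A ∧ a < 2 ^ K ∧ ¬ Pool.Agent.Helper5.FP.Cand.Normal 2 1 d K a}.ncard := by
  obtain ⟨C₁, hC₁⟩ : ∃ C₁ : ℝ, C₁ = max C 0 := ⟨_, rfl⟩
  have hC0 : 0 ≤ C₁ := by rw [hC₁]; exact le_max_right _ _
  have hCC : C ≤ C₁ := by rw [hC₁]; exact le_max_left _ _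
  obtain ⟨M, hM⟩ : ∃ M : ℕ, M = ⌈2 / c⌉₊ + 1 := ⟨_, rfl⟩
  obtain ⟨c', hc'⟩ : ∃ c' : ℝ, c' = min (min (c / 4) (1 / 2))
    (min (c * (2 : ℝ) ^ (-(1 / 2 + 8 * C₁))) (((2 : ℝ) ^ M)⁻¹)) := ⟨_, rfl⟩
  have hc'0 : 0 < c' := by
    rw [hc']
    refine lt_min (lt_min (by linarith) (by norm_num)) (lt_min ?_ (by positivity))
    exact mul_pos hc (Real.rpow_pos_of_pos (by norm_num) _)
  have hc1 : c' ≤ c / 4 := by rw [hc']; exact (min_le_left _ _).trans (min_le_left _ _)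
  have hc2 : c' ≤ 1 / 2 := by rw [hc']; exact (min_le_left _ _).trans (min_le_right _ _)
  have hc3 : c' ≤ c * (2 : ℝ) ^ (-(1 / 2 + 8 * C₁)) := by
    rw [hc']; exact (min_le_right _ _).trans (min_le_left _ _)
  have hc4 : c' ≤ ((2 : ℝ) ^ M)⁻¹ := by
    rw [hc']; exact (min_le_right _ _).trans (min_le_right _ _)
  refine ⟨c', 128 * C₁, hc'0, fun K d hK hd0 hd => ?_⟩
  obtain ⟨k, rfl⟩ : ∃ k, K = k + 1 := ⟨K - 1, by omega⟩
  have hfin : {a | a ∈ A ∧ a < 2 ^ (k + 1) ∧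
      ¬ Pool.Agent.Helper5.FP.Cand.Normal 2 1 d (k + 1) a}.Finite :=
    (Set.finite_Iio (2 ^ (k + 1))).subset fun a ha => ha.2.1
  -- elements with many digits `0` are not normal
  have hnn : ∀ a : ℕ, ((k + 1 : ℕ) : ℝ) / 2 + d * ((k + 1 : ℕ) : ℝ) ≤ (blocks 2 1 0 (k + 1) a : ℝ) →
      ¬ Pool.Agent.Helper5.FP.Cand.Normal 2 1 d (k + 1) a := by
    intro a ha hN
    have h1 := (abs_lt.1 (hN 0 (by norm_num))).2
    norm_num at h1 ha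
    linarith
  rcases lt_or_ge (k : ℝ) (2 / c) with hk | hk
  · -- small `K`
    have h1 : (0 : ℕ) ∈ {a | a ∈ A ∧ a < 2 ^ (k + 1) ∧
        ¬ Pool.Agent.Helper5.FP.Cand.Normal 2 1 d (k + 1) a} := by
      refine ⟨h0, by positivity, hnn 0 ?_⟩
      have e : blocks 2 1 0 (k + 1) 0 = k + 1 := by
        unfold blocks
        have : {i | i < k + 1 ∧ 0 / 2 ^ i % 2 ^ 1 = 0} = (↑(range (k + 1)) : Set ℕ) := by
          ext i
          simp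
        rw [this, Set.ncard_coe_finset, card_range]
      rw [e]
      have h2 : d ≤ 1 / 2 := hd.trans hc2
      have h3 : (0 : ℝ) ≤ ((k + 1 : ℕ) : ℝ) := Nat.cast_nonneg _
      nlinarith
    have h2 : 1 ≤ {a | a ∈ A ∧ a < 2 ^ (k + 1) ∧
        ¬ Pool.Agent.Helper5.FP.Cand.Normal 2 1 d (k + 1) a}.ncard := by
      rw [Nat.one_le_iff_ne_zero, Ne, Set.ncard_eq_zero hfin]
      exact Set.nonempty_iff_ne_empty.1 ⟨0, h1⟩
    have h3 : (1 : ℝ) ≤ {a | a ∈ A ∧ a < 2 ^ (k + 1) ∧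
        ¬ Pool.Agent.Helper5.FP.Cand.Normal 2 1 d (k + 1) a}.ncard := by exact_mod_cast h2
    refine le_trans ?_ h3
    have h4 : k + 1 ≤ M := by
      have : (k : ℝ) < ⌈2 / c⌉₊ := hk.trans_le (Nat.le_ceil _)
      have : k < ⌈2 / c⌉₊ := by exact_mod_cast this
      omega
    have h5 : (1 : ℝ) ≤ 2 ^ (k + 1) := one_le_pow₀ (by norm_num)
    have h6 : ((2 : ℝ) ^ (k + 1)) ^ (1 / 2 - 128 * C₁ * d ^ 4) ≤ 2 ^ M := by
      calc ((2 : ℝ) ^ (k + 1)) ^ (1 / 2 - 128 * C₁ * d ^ 4) ≤ ((2 : ℝ) ^ (k + 1)) ^ (1 : ℝ) := by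
            refine Real.rpow_le_rpow_of_exponent_le h5 ?_
            have : 0 ≤ 128 * C₁ * d ^ 4 := by positivity
            linarith
        _ = 2 ^ (k + 1) := Real.rpow_one _
        _ ≤ 2 ^ M := pow_le_pow_right₀ (by norm_num) h4
    calc c' * ((2 : ℝ) ^ (k + 1)) ^ (1 / 2 - 128 * C₁ * d ^ 4) ≤ ((2 : ℝ) ^ M)⁻¹ * 2 ^ M :=
          mul_le_mul hc4 h6 (Real.rpow_nonneg (by positivity) _) (by positivity)
      _ = 1 := inv_mul_cancel₀ (by positivity)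
  · -- large `K`
    have hk0 : (0 : ℝ) < k := lt_of_lt_of_le (by positivity) hk
    have hk1 : (1 : ℝ) ≤ k := by
      have : 0 < k := by exact_mod_cast hk0
      exact_mod_cast this
    obtain ⟨e, he⟩ : ∃ e : ℝ, e = 2 * d + 1 / k := ⟨_, rfl⟩
    have hinv : (0 : ℝ) < 1 / k := by positivity
    have hinv1 : 1 / (k : ℝ) ≤ 1 := by rw [div_le_one hk0]; exact hk1
    have he0 : 0 ≤ e := by rw [he]; linarith
    have hec : e ≤ c := by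
      have h1 : 1 / (k : ℝ) ≤ c / 2 := by
        rw [div_le_div_iff₀ hk0 (by norm_num)]
        rw [div_le_iff₀ hc] at hk
        linarith
      rw [he]
      linarith
    have hek : e * k = 2 * d * k + 1 := by
      rw [he]
      field_simp
    have h1 := h k e he0 hec
    have h2 : {a | a ∈ A ∧ 2 ^ k ≤ a ∧ a < 2 ^ (k + 1) ∧
        (1 / 2 + e) * k ≤ ({i | i < k ∧ a / 2 ^ i % 2 ^ 1 = 0}.ncard : ℝ)} ⊆
        {a | a ∈ A ∧ a < 2 ^ (k + 1) ∧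
          ¬ Pool.Agent.Helper5.FP.Cand.Normal 2 1 d (k + 1) a} := by
      rintro a ⟨ha1, -, ha3, ha4⟩
      refine ⟨ha1, ha3, hnn a ?_⟩
      have h3 : {i | i < k ∧ a / 2 ^ i % 2 ^ 1 = 0}.ncard ≤ blocks 2 1 0 (k + 1) a := by
        refine Set.ncard_le_ncard (fun i hi => ⟨Nat.lt_succ_of_lt hi.1, hi.2⟩) ?_
        exact (Set.finite_Iio (k + 1)).subset fun i hi => hi.1
      have h4 : (({i | i < k ∧ a / 2 ^ i % 2 ^ 1 = 0}.ncard : ℕ) : ℝ) ≤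
          (blocks 2 1 0 (k + 1) a : ℝ) := by exact_mod_cast h3
      have h5 : (1 / 2 + e) * k = k / 2 + (2 * d * k + 1) := by rw [← hek]; ring
      rw [h5] at ha4
      push_cast
      nlinarith
    have h3 : (({a | a ∈ A ∧ 2 ^ k ≤ a ∧ a < 2 ^ (k + 1) ∧
        (1 / 2 + e) * k ≤ ({i | i < k ∧ a / 2 ^ i % 2 ^ 1 = 0}.ncard : ℝ)}.ncard : ℕ) : ℝ) ≤
        ({a | a ∈ A ∧ a < 2 ^ (k + 1) ∧
          ¬ Pool.Agent.Helper5.FP.Cand.Normal 2 1 d (k + 1) a}.ncard : ℕ) := by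
      exact_mod_cast Set.ncard_le_ncard h2 hfin
    refine le_trans ?_ (h1.trans h3)
    -- the exponents
    have h4 : e ^ 4 ≤ 128 * d ^ 4 + 8 * (1 / k) := by
      have h5 := add_pow_le (by positivity : (0 : ℝ) ≤ 2 * d) hinv.le 4
      rw [← he] at h5
      have h6 : (1 / (k : ℝ)) ^ 4 ≤ 1 / k := by
        calc (1 / (k : ℝ)) ^ 4 ≤ (1 / (k : ℝ)) ^ 1 :=
              pow_le_pow_of_le_one hinv.le hinv1 (by norm_num)
          _ = 1 / k := pow_one _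
      norm_num at h5 h6 ⊢
      nlinarith
    have h5 : C * e ^ 4 * k ≤ 128 * C₁ * d ^ 4 * (k + 1) + 8 * C₁ := by
      have h6 : C * e ^ 4 ≤ C₁ * (128 * d ^ 4 + 8 * (1 / k)) :=
        mul_le_mul hCC h4 (by positivity) hC0
      have h7 := mul_le_mul_of_nonneg_right h6 hk0.le
      have h8 : C₁ * (128 * d ^ 4 + 8 * (1 / k)) * k = 128 * C₁ * d ^ 4 * k + 8 * C₁ := by
        field_simp
      rw [h8] at h7
      have h9 : 0 ≤ 128 * C₁ * d ^ 4 := by positivity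
      linarith
    have hpow : ∀ (n : ℕ) (s : ℝ), ((2 : ℝ) ^ n) ^ s = (2 : ℝ) ^ ((n : ℝ) * s) := by
      intro n s
      rw [← Real.rpow_natCast, ← Real.rpow_mul (by norm_num)]
    have h6 : (2 : ℝ) ^ (-(1 / 2 + 8 * C₁)) * ((2 : ℝ) ^ (k + 1)) ^ (1 / 2 - 128 * C₁ * d ^ 4) ≤
        ((2 : ℝ) ^ k) ^ (1 / 2 - C * e ^ 4) := by
      rw [hpow, hpow, ← Real.rpow_add (by norm_num)]
      refine Real.rpow_le_rpow_of_exponent_le (by norm_num) ?_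
      push_cast
      linarith
    calc c' * ((2 : ℝ) ^ (k + 1)) ^ (1 / 2 - 128 * C₁ * d ^ 4)
        ≤ c * (2 : ℝ) ^ (-(1 / 2 + 8 * C₁)) *
            ((2 : ℝ) ^ (k + 1)) ^ (1 / 2 - 128 * C₁ * d ^ 4) :=
          mul_le_mul_of_nonneg_right hc3 (Real.rpow_nonneg (by positivity) _)
      _ = c * ((2 : ℝ) ^ (-(1 / 2 + 8 * C₁)) *
            ((2 : ℝ) ^ (k + 1)) ^ (1 / 2 - 128 * C₁ * d ^ 4)) := mul_assoc _ _ _
      _ ≤ c * ((2 : ℝ) ^ k) ^ (1 / 2 - C * e ^ 4) := mul_le_mul_of_nonneg_left h6 hc.le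

end Pool.Agent.Helper87.FP
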